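import Pool.Agent.Y461.KM.Fin
import Pool.Agent.Y461.KM.Div
import Pool.Agent.Y401.KM.Mol
import Pool.Agent.Y38.KM.HS
import Pool.Agent.Y845.KM.Dsq
import Pool.Agent.Y845.KM.Grd
import Pool.Agent.Y845.KM.Pt
import Pool.Agent.Y785.KM.Eul
import Pool.Agent.Y473.KM.Dga
import Pool.Agent.Y473.KM.Fgm
import Pool.Agent.Y348.KM.Hyp
import Pool.Agent.Y486.KM.Conn
import Pool.Agent.Y567.KM.Sym
import Pool.Agent.Y455.KM.Pw

/-!
# Rational cohomology of classifying spaces of indefinite Kac–Moody groups

Let `A` be a generalized Cartan matrix. By Kitchloo's theorem the classifying space of the
Kac–Moody group `G(A)` is the homotopy colimit of the classifying spaces of the compact Lie groups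
`K_J`, `J` a spherical subset, and `H^*(BK_J; ℚ)` is the ring of invariants of the finite group `W_J`
in the polynomial ring `P = H^*(BT; ℚ)`. Hence the rational cohomology ring of `BG(A)` is the
cohomology of the algebra of cochains on the chains `J_0 < … < J_p` of spherical subsets with values
in `P ^ (W_{J_0})` (the derived limits of the invariant rings, with the cup product).

We show that for `n ≥ 3` and every indecomposable `A` of indefinite type this ring is not finitely
generated. Proof: the alternating sum `E(t)` of the Hilbert series of the cohomology in the cochain
degrees is the alternating sum over the simplices of the Hilbert series of `P ^ (W_J)`, so by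
Molien's formula it is a rational function of degree at most `- dim T`. If the ring is finitely
generated, every cohomology group is a finitely generated module over `H^0 = P ^ W`, and for indefinite
`A` the ring `P ^ W` is generated by the linear invariants and at most one quadratic form, so
`E(t) (1 - t) ^ (dim T - n) (1 - t ^ 2)` is a polynomial. For `n ≥ 3` this forces `E = 0`, but
`E(0) = 1`. The structure of `P ^ W` is proved here for all indefinite matrices and all tori: the
derivatives along the real coroots are proportional because of the one-parameter groups generated
by products of two reflections.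

Jobs of the proof were done by helpers 401 (Molien), 38 (Hilbert–Serre), 845 (the complex), 785
(Euler characteristic), 473 (cup product, finite generation), 348 (pairs of reflections), 486
(connectivity of the real roots), 567 and 455 (invariants), 461 (the rest).
-/

namespace Pool.Agent.Results.MP_fc0265_gt.InfinitelyGenerated

open Pool.Agent.Y461.KM

/-- For `n ≥ 3`, every indecomposable generalized Cartan matrix `A` of indefinite type and every
torus, the cohomology ring is not finitely generated. -/
theorem result : ∀ (n m : ℕ) (A : Matrix (Fin n) (Fin n) ℤ) (b : Fin n → Fin m → ℚ), 3 ≤ n →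
    IsGCM A → Indec A → Indef A → ¬ FinGen A b :=
  fin_of Pool.Agent.Y401.KM.mol Pool.Agent.Y38.KM.hs Pool.Agent.Y785.KM.eul
    Pool.Agent.Y845.KM.Pt.pt (Pool.Agent.Y845.KM.Grd.grd Pool.Agent.Y845.KM.dsq)
    (Pool.Agent.Y473.KM.fgm Pool.Agent.Y473.KM.dga)
    (Pool.Agent.Y455.KM.pw (Pool.Agent.Y567.KM.sym div cov Pool.Agent.Y348.KM.hyp
      Pool.Agent.Y486.KM.con))

end Pool.Agent.Results.MP_fc0265_gt.InfinitelyGenerated
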